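import Pool.Agent.LWP.Gm
import Pool.Agent.RCM.PiG

/-!
Lang's conjecture with `π`, part 3: `π` is algebraic over the field of a family of gamma values if
and only if the class functions of the family span a fixed space of functions of a fixed level.
-/

set_option autoImplicit false

namespace Pool.Agent.LWP

open Finset Pool.Agent.Helper99.Rohr Pool.Agent.ROH Pool.Agent.ROH8 Pool.Agent.RHK Pool.Agent.RCM

/-! ## the conductor of a family of functions -/

theorem conductor' {α : Type*} {f : ℕ → α} {M : ℕ} (hM : 0 < M)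
    (hf : ∀ m m', m ≡ m' [MOD M] → f m = f m') :
    ∃ D₀ : ℕ, 0 < D₀ ∧ D₀ ∣ M ∧
      (∀ m m' : ℕ, m.Coprime M → m'.Coprime M → m ≡ m' [MOD D₀] → f m = f m') ∧
      ∀ D : ℕ, 0 < D → (∀ m m' : ℕ, m.Coprime (M * D) → m'.Coprime (M * D) → m ≡ m' [MOD D] →
        f m = f m') → D₀ ∣ D := by
  classical
  set P : ℕ → Prop := fun D => 0 < D ∧ D ∣ M ∧
    ∀ m m' : ℕ, m.Coprime M → m'.Coprime M → m ≡ m' [MOD D] → f m = f m' with hP
  have hPM : P M := ⟨hM, dvd_refl M, fun m m' _ _ h => hf m m' h⟩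
  have hgcd : ∀ D1 D2, P D1 → P D2 → P (Nat.gcd D1 D2) := by
    rintro D1 D2 ⟨h1, h1M, h1f⟩ ⟨h2, h2M, h2f⟩
    refine ⟨Nat.gcd_pos_of_pos_left _ h1, (Nat.gcd_dvd_left _ _).trans h1M, ?_⟩
    intro m m' hm hm' hmm
    obtain ⟨x, hx1, hx2⟩ := crt hmm
    have c1 : x.Coprime D1 := cop_congr hx1 (hm.coprime_dvd_right h1M)
    have c2 : x.Coprime D2 := cop_congr hx2 (hm'.coprime_dvd_right h2M)
    obtain ⟨y, hyM, hyx⟩ := lift_coprime (d := D1 * D2) (Nat.mul_pos h1 h2) hM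
      (Nat.Coprime.mul_right c1 c2)
    have e1 : m ≡ y [MOD D1] := hx1.symm.trans (hyx.of_mul_right D2).symm
    have e2 : y ≡ m' [MOD D2] := (hyx.of_mul_left D1).trans hx2
    rw [h1f m y hm hyM e1, h2f y m' hyM hm' e2]
  have hex : ∃ D, P D := ⟨M, hPM⟩
  have hmin := Nat.find_spec hex
  refine ⟨Nat.find hex, hmin.1, hmin.2.1, hmin.2.2, ?_⟩
  intro D hD hQ
  have hPD : P (Nat.gcd D M) := by
    refine ⟨Nat.gcd_pos_of_pos_left _ hD, Nat.gcd_dvd_right _ _, ?_⟩
    intro m m' hm hm' hmm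
    obtain ⟨m2, h2D, h2m⟩ := lift_coprime (M := M * D) hM (Nat.mul_pos hM hD) hm'
    have h3 : m2 ≡ m [MOD Nat.gcd D M] :=
      (h2m.of_dvd (Nat.gcd_dvd_right _ _)).trans hmm.symm
    obtain ⟨x, hx1, hx2⟩ := crt h3
    have c1 : x.Coprime D := cop_congr hx1 (Nat.Coprime.coprime_mul_left_right h2D)
    have c2 : x.Coprime M := cop_congr hx2 hm
    rw [← hf x m hx2, hQ x m2 (Nat.Coprime.mul_right c2 c1) h2D hx1]
    exact hf m2 m' h2m
  have h1 := hgcd _ _ hmin hPD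
  have h2 : Nat.find hex ≤ Nat.gcd (Nat.find hex) (Nat.gcd D M) := Nat.find_min' hex h1
  have h3 : Nat.gcd (Nat.find hex) (Nat.gcd D M) ∣ Nat.find hex := Nat.gcd_dvd_left _ _
  have h4 := Nat.le_of_dvd hmin.1 h3
  have h5 : Nat.gcd (Nat.find hex) (Nat.gcd D M) = Nat.find hex := le_antisymm h4 h2
  rw [← h5]
  exact (Nat.gcd_dvd_right _ _).trans (Nat.gcd_dvd_left _ _)

/-! ## tuples -/

/-- the class function `m ↦ {m x} - 1 / 2` on the integers `m` prime to `M` -/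
def cf (M : ℕ) (x : ℚ) : {m : ℕ // m.Coprime M} → ℚ :=
  fun m => Int.fract (((m : ℕ) : ℚ) * x) - 1 / 2

/-- non-integral rationals with common denominator `M` -/
def NI (M : ℕ) {k : ℕ} (x : Fin k → ℚ) : Prop :=
  0 < M ∧ (∀ i, ∃ z : ℤ, (M : ℚ) * x i = z) ∧ ∀ (i : Fin k) (z : ℤ), x i ≠ z

/-- the logarithms of the gamma monomials of a tuple -/
noncomputable def TT {k : ℕ} (x : Fin k → ℚ) : Submodule ℚ ℝ :=
  Submodule.span ℚ (Set.range fun i => lg (Int.fract (x i))) ⊔ LogAlgQ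

theorem alg_le_TT {k : ℕ} (x : Fin k → ℚ) : LogAlgQ ≤ TT x := le_sup_right

theorem NI.pt {M : ℕ} {k : ℕ} {x : Fin k → ℚ} (h : NI M x) {L : ℕ} (hML : M ∣ L) (i : Fin k) :
    IsPt L (Int.fract (x i)) := by
  obtain ⟨-, h2, h3⟩ := h
  refine isPt_fract ?_ ?_
  · obtain ⟨z, hz⟩ := h2 i
    obtain ⟨e, he⟩ := hML
    refine ⟨e * z, ?_⟩
    rw [he]
    push_cast
    rw [← hz]
    ring
  · intro h0
    apply h3 i ⌊x i⌋
    have h1 := Int.floor_add_fract (x i)
    rw [h0, add_zero] at h1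
    exact h1.symm

theorem NI.TT_le {M : ℕ} {k : ℕ} {x : Fin k → ℚ} (h : NI M x) : TT x ≤ LL := by
  refine sup_le ?_ alg_le_LL
  rw [Submodule.span_le]
  rintro _ ⟨i, rfl⟩
  exact lg_mem_LL h.1 (h.pt (dvd_refl M) i)

/-- gamma monomials which are algebraic numbers have class function zero -/
theorem gm_inj (hT : TrAll) {L : ℕ} (hL : 2 < L) {χ : (ZMod L)ˣ → ℚ} {y : ℝ} (h : (χ, y) ∈ GM L)
    (hy : y ∈ LogAlgQ) : χ = 0 := by
  by_contra hne
  have h1 : LinearIndependent ℚ (fun _ : Fin 1 => χ) := by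
    rw [linearIndependent_unique_iff]
    exact hne
  have h2 := dim_le hT hL (fun i : Fin 0 => i.elim0) (χ := fun _ : Fin 1 => χ)
    (X := fun _ => y) (fun _ => h) (fun _ => gm_odd (by omega) h)
    (fun _ => logAlg_le _ hy) h1
  omega

theorem NI.saw {M : ℕ} {k : ℕ} {x : Fin k → ℚ} (h : NI M x) {L : ℕ} (hL : 0 < L) (hML : M ∣ L)
    (i : Fin k) {m : ℕ} (hm : m.Coprime L) :
    ev (Sf L (Int.fract (x i))) m = Int.fract ((m : ℚ) * x i) - 1 / 2 := by
  have : NeZero L := ⟨hL.ne'⟩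
  rw [ev_Sf hm (h.pt hML i).2.2]
  unfold Pool.Agent.Helper99.Rohr.saw
  rw [fract_mul_fract]

/-- **membership**: a gamma monomial modulo those of a tuple -/
theorem mem_TT (hT : TrAll) {D₀ : ℕ} (hD0 : 0 < D₀) (h3 : 3 ∣ D₀) {χ : (ZMod D₀)ˣ → ℚ} {y : ℝ}
    (hy : (χ, y) ∈ GM D₀) {M : ℕ} {k : ℕ} {x : Fin k → ℚ} (hx : NI M x) :
    y ∈ TT x ↔ ∃ c : Fin k → ℚ, ∀ m : ℕ, m.Coprime (D₀ * M) →
      ev χ m = ∑ i, c i * (Int.fract ((m : ℚ) * x i) - 1 / 2) := by
  set L := D₀ * M with hLdef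
  have hL : 0 < L := Nat.mul_pos hD0 hx.1
  have : NeZero L := ⟨hL.ne'⟩
  have hD2 : 2 < L := by
    have h1 := Nat.le_of_dvd hL (h3.trans (Nat.dvd_mul_right D₀ M))
    omega
  have hDL : D₀ ∣ L := Nat.dvd_mul_right _ _
  have hML : M ∣ L := Nat.dvd_mul_left _ _
  have hy' := gm_pb hD0 hL hDL hy
  have hs : ∀ i, (Sf L (Int.fract (x i)), lg (Int.fract (x i))) ∈ GM L := fun i =>
    gm_sf (hx.pt hML i)
  constructor
  · intro h
    obtain ⟨w, hw, a, ha, hwa⟩ := Submodule.mem_sup.1 h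
    obtain ⟨c, hc⟩ := (Submodule.mem_span_range_iff_exists_fun ℚ).1 hw
    refine ⟨c, fun m hm => ?_⟩
    have h1 := gm_sum univ c hs
    have h2 := (GM L).sub_mem hy' h1
    have h4 : y - ∑ i, c i • lg (Int.fract (x i)) = a := by
      rw [hc, ← hwa]
      ring
    rw [Prod.mk_sub_mk, h4] at h2
    have h5 := sub_eq_zero.1 (gm_inj hT hD2 h2 ha)
    rw [← ev_pb hDL χ hm, h5, ev_sum]
    exact sum_congr rfl fun i _ => by rw [hx.saw hL hML i hm]
  · rintro ⟨c, hc⟩
    have h1 := gm_sum univ c hs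
    have h2 := (GM L).sub_mem hy' h1
    have h5 : pb hDL χ = ∑ i, c i • Sf L (Int.fract (x i)) := by
      apply eq_of_ev
      intro m hm
      rw [ev_pb hDL χ hm, hc m hm, ev_sum]
      exact sum_congr rfl fun i _ => by rw [hx.saw hL hML i hm]
    rw [Prod.mk_sub_mk, h5, sub_self] at h2
    have h6 := gm_zero hL h2
    have h7 : y = ∑ i, c i • lg (Int.fract (x i)) + (y - ∑ i, c i • lg (Int.fract (x i))) := by ring
    rw [h7]
    refine Submodule.add_mem _ (Submodule.mem_sup_left ?_) (Submodule.mem_sup_right h6)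
    exact (Submodule.mem_span_range_iff_exists_fun ℚ).2 ⟨c, rfl⟩

/-- the space of a family of functions, as class functions prime to `M` -/
def InSp {d : ℕ} (U : Fin d → ℕ → ℚ) (M : ℕ) {k : ℕ} (x : Fin k → ℚ) : Prop :=
  ∀ j, (fun m : {m : ℕ // m.Coprime M} => U j m) ∈
    Submodule.span ℚ (Set.range fun i => cf M (x i))

/-- **the level** of a finite dimensional space of gamma monomials -/
theorem level (hT : TrAll) {d D₀ : ℕ} (hD0 : 0 < D₀) (h3 : 3 ∣ D₀)
    {χ : Fin d → ((ZMod D₀)ˣ → ℚ)} {y : Fin d → ℝ} (hy : ∀ j, (χ j, y j) ∈ GM D₀)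
    (hli : LinearIndependent ℚ (fun j => LogAlgQ.mkQ (y j))) :
    ∃ (f : ℕ) (U : Fin d → ℕ → ℚ), 0 < f ∧ (f % 4 = 2 → False) ∧
      (∀ (j : Fin d) (m m' : ℕ), m ≡ m' [MOD f] → U j m = U j m') ∧
      (∀ (j : Fin d) (m m' : ℕ), m.Coprime f → f ∣ m + m' → U j m' = -U j m) ∧
      (d = 0 → f = 1) ∧
      LinearIndependent ℚ (fun (j : Fin d) (m : {m : ℕ // m.Coprime f}) => U j m) ∧
      ∀ (M k : ℕ) (x : Fin k → ℚ), NI M x →
        ((∀ j, y j ∈ TT x) ↔ f ∣ M ∧ InSp U M x) := by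
  classical
  have : NeZero D₀ := ⟨hD0.ne'⟩
  obtain ⟨f, hf, hfD, hcong, hcond⟩ := conductor' (f := fun m j => ev (χ j) m) hD0
    (fun m m' h => by
      funext j
      exact ev_congr (χ j) h)
  have hcong' : ∀ (j : Fin d) (m m' : ℕ), m.Coprime D₀ → m'.Coprime D₀ → m ≡ m' [MOD f] →
      ev (χ j) m = ev (χ j) m' := fun j m m' hm hm' h => congrFun (hcong m m' hm hm' h) j
  have hlift : ∀ m : ℕ, ∃ z : ℕ, m.Coprime f → z.Coprime D₀ ∧ z ≡ m [MOD f] := by
    intro m
    by_cases hm : m.Coprime f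
    · obtain ⟨z, h1, h2⟩ := lift_coprime hf hD0 hm
      exact ⟨z, fun _ => ⟨h1, h2⟩⟩
    · exact ⟨0, fun h => absurd h hm⟩
  choose Y hY using hlift
  let U : Fin d → ℕ → ℚ := fun j m => if m.Coprime f then ev (χ j) (Y m) else 0
  have hU1 : ∀ (j : Fin d) {m : ℕ}, m.Coprime D₀ → U j m = ev (χ j) m := by
    intro j m hm
    have hmf := hm.coprime_dvd_right hfD
    simp only [U, if_pos hmf]
    exact hcong' j _ _ (hY m hmf).1 hm (hY m hmf).2
  have hU2 : ∀ (j : Fin d) (m m' : ℕ), m ≡ m' [MOD f] → U j m = U j m' := by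
    intro j m m' h
    by_cases hm : m.Coprime f
    · have hm' : m'.Coprime f := cop_congr h.symm hm
      simp only [U, if_pos hm, if_pos hm']
      exact hcong' j _ _ (hY m hm).1 (hY m' hm').1
        (((hY m hm).2.trans h).trans (hY m' hm').2.symm)
    · have hm' : ¬ m'.Coprime f := fun h' => hm (cop_congr h h')
      simp only [U, if_neg hm, if_neg hm']
  refine ⟨f, U, hf, ?_, hU2, ?_, ?_, ?_, ?_⟩
  · -- `f` is not twice an odd number
    intro h4
    obtain ⟨k, hk⟩ : ∃ k, f = 2 * k := ⟨f / 2, by omega⟩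
    have hk2 : k % 2 = 1 := by omega
    have h2D : 2 ∣ D₀ := (Dvd.intro k hk.symm).trans hfD
    have hodd : ∀ {m : ℕ}, m.Coprime D₀ → m % 2 = 1 := by
      intro m hm
      have h6 : m.Coprime 2 := hm.coprime_dvd_right h2D
      rcases Nat.mod_two_eq_zero_or_one m with h7 | h7
      · exfalso
        have h8 : 2 ∣ m := Nat.dvd_of_mod_eq_zero h7
        have h9 := Nat.dvd_gcd h8 (dvd_refl 2)
        rw [h6] at h9
        omega
      · exact h7
    have h5 : f ∣ k := by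
      refine hcond k (by omega) fun m m' hm hm' hmm => ?_
      have c : ∀ {m : ℕ}, m.Coprime (D₀ * k) → m.Coprime D₀ :=
        fun h => h.coprime_dvd_right (Dvd.intro _ rfl)
      refine hcong m m' (c hm) (c hm') ?_
      rw [hk]
      have hc2 : Nat.Coprime 2 k := by
        rw [Nat.coprime_two_left, Nat.odd_iff]
        exact hk2
      rw [← Nat.modEq_and_modEq_iff_modEq_mul hc2]
      refine ⟨?_, hmm⟩
      show m % 2 = m' % 2
      rw [hodd (c hm), hodd (c hm')]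
    have h7 := Nat.le_of_dvd (by omega) h5
    omega
  · -- oddness
    intro j m m' hm hmm
    obtain ⟨h1, h2⟩ := hY m hm
    obtain ⟨n, hn1, hn2⟩ := exists_neg hD0 h1
    have h4 : n ≡ m' [MOD f] := by
      have h5 : f ∣ Y m + n := hfD.trans hn2
      have h6 : Y m + n ≡ m + m' [MOD f] :=
        ((Nat.modEq_zero_iff_dvd.2 h5).trans (Nat.modEq_zero_iff_dvd.2 hmm).symm)
      exact Nat.ModEq.add_left_cancel h2 h6
    rw [hU2 j m' n h4.symm, hU1 j hn1]
    have hm1 : U j m = ev (χ j) (Y m) := by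
      simp only [U, if_pos hm]
    rw [hm1, ev_pos _ hn1, ev_pos _ h1]
    have h7 : ZMod.unitOfCoprime n hn1 = -ZMod.unitOfCoprime (Y m) h1 := by
      ext
      rw [Units.val_neg, ZMod.coe_unitOfCoprime, ZMod.coe_unitOfCoprime]
      have h8 : ((Y m + n : ℕ) : ZMod D₀) = 0 := (ZMod.natCast_eq_zero_iff _ _).2 hn2
      push_cast at h8
      exact eq_neg_of_add_eq_zero_right h8
    rw [h7]
    exact gm_odd hD0 (hy j) _
  · -- dimension zero
    intro hd
    subst hd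
    have h1 := hcond 1 one_pos fun m m' _ _ _ => by
      funext j
      exact j.elim0
    exact Nat.dvd_one.1 h1
  · -- linear independence
    have hchi := linInd_chi hD0 hy hli
    rw [Fintype.linearIndependent_iff] at hchi ⊢
    intro c hc
    apply hchi c
    apply eq_of_ev
    intro m hm
    have h1 := congrFun hc ⟨m, hm.coprime_dvd_right hfD⟩
    rw [Finset.sum_apply, Pi.zero_apply] at h1
    rw [ev_sum]
    have h2 : ev (0 : (ZMod D₀)ˣ → ℚ) m = 0 := by
      rw [ev_pos _ hm]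
      rfl
    rw [h2, ← h1]
    refine sum_congr rfl fun j _ => ?_
    rw [Pi.smul_apply, smul_eq_mul, hU1 j hm]
  · -- the criterion
    intro M k x hx
    constructor
    · intro h
      choose c hc using fun j => (mem_TT hT hD0 h3 (hy j) hx).1 (h j)
      have hfM : f ∣ M := by
        refine hcond M hx.1 fun m m' hm hm' hmm => ?_
        funext j
        rw [hc j m hm, hc j m' hm']
        exact sum_congr rfl fun i _ => by rw [ROH.fract_congr hmm (hx.2.1 i)]
      refine ⟨hfM, fun j => ?_⟩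
      refine (Submodule.mem_span_range_iff_exists_fun ℚ).2 ⟨c j, ?_⟩
      funext m
      obtain ⟨m', hm', hmm⟩ := lift_coprime (M := D₀ * M) hx.1 (Nat.mul_pos hD0 hx.1) m.2
      have hm0 : m'.Coprime D₀ := hm'.coprime_dvd_right (Dvd.intro _ rfl)
      have e1 : U j m = ev (χ j) m' := by
        rw [← hU1 j hm0]
        exact (hU2 j _ _ (hmm.of_dvd hfM)).symm
      rw [Finset.sum_apply]
      show _ = U j m
      rw [e1, hc j m' hm']
      refine sum_congr rfl fun i _ => ?_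
      show c j i • cf M (x i) m = _
      unfold cf
      rw [smul_eq_mul, ROH.fract_congr hmm (hx.2.1 i)]
    · rintro ⟨hfM, h⟩ j
      rw [mem_TT hT hD0 h3 (hy j) hx]
      obtain ⟨c, hc⟩ := (Submodule.mem_span_range_iff_exists_fun ℚ).1 (h j)
      refine ⟨c, fun m hm => ?_⟩
      have hm0 : m.Coprime D₀ := hm.coprime_dvd_right (Dvd.intro _ rfl)
      have hmM : m.Coprime M := hm.coprime_dvd_right (Dvd.intro_left _ rfl)
      have h1 := congrFun hc ⟨m, hmM⟩
      rw [Finset.sum_apply] at h1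
      rw [← hU1 j hm0]
      exact h1.symm

end Pool.Agent.LWP
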