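import Pool.Agent.LWP.Mat
import Pool.Agent.RCM.Theta

/-!
Lang's conjecture with `π`, part 2: the logarithms of all gamma monomials, of all levels together.
-/

set_option autoImplicit false

namespace Pool.Agent.LWP

open Finset Pool.Agent.Helper99.Rohr Pool.Agent.ROH Pool.Agent.ROH8 Pool.Agent.RHK Pool.Agent.RCM

/-! ## functions on the units as functions of integers -/

open Classical in
/-- the value of a function on the units modulo `D` at an integer -/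
noncomputable def ev {D : ℕ} (χ : (ZMod D)ˣ → ℚ) (m : ℕ) : ℚ :=
  if h : m.Coprime D then χ (ZMod.unitOfCoprime m h) else 0

theorem ev_pos {D m : ℕ} (χ : (ZMod D)ˣ → ℚ) (h : m.Coprime D) :
    ev χ m = χ (ZMod.unitOfCoprime m h) := by
  unfold ev
  rw [dif_pos h]

theorem ev_neg {D m : ℕ} (χ : (ZMod D)ˣ → ℚ) (h : ¬ m.Coprime D) : ev χ m = 0 := by
  unfold ev
  rw [dif_neg h]

theorem cop_congr {a b M : ℕ} (h : a ≡ b [MOD M]) (hb : b.Coprime M) : a.Coprime M := by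
  unfold Nat.Coprime at hb ⊢
  rw [h.gcd_eq]
  exact hb

theorem ev_congr {D m m' : ℕ} (χ : (ZMod D)ˣ → ℚ) (h : m ≡ m' [MOD D]) : ev χ m = ev χ m' := by
  by_cases hm : m.Coprime D
  · have hm' : m'.Coprime D := cop_congr h.symm hm
    rw [ev_pos χ hm, ev_pos χ hm']
    congr 1
    ext
    rw [ZMod.coe_unitOfCoprime, ZMod.coe_unitOfCoprime]
    exact (ZMod.natCast_eq_natCast_iff _ _ _).2 h
  · have hm' : ¬ m'.Coprime D := fun h' => hm (cop_congr h h')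
    rw [ev_neg χ hm, ev_neg χ hm']

theorem ev_sum {D : ℕ} {ι : Type*} (s : Finset ι) (c : ι → ℚ) (χ : ι → ((ZMod D)ˣ → ℚ)) (m : ℕ) :
    ev (∑ i ∈ s, c i • χ i) m = ∑ i ∈ s, c i * ev (χ i) m := by
  by_cases hm : m.Coprime D
  · rw [ev_pos _ hm, Finset.sum_apply]
    refine sum_congr rfl fun i _ => ?_
    rw [ev_pos _ hm]
    rfl
  · rw [ev_neg _ hm]
    exact (sum_eq_zero fun i _ => by rw [ev_neg _ hm, mul_zero]).symm

theorem eq_of_ev {D : ℕ} [NeZero D] {χ χ' : (ZMod D)ˣ → ℚ}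
    (h : ∀ m : ℕ, m.Coprime D → ev χ m = ev χ' m) : χ = χ' := by
  funext t
  have hc := ZMod.val_coe_unit_coprime t
  have h1 := h _ hc
  rw [ev_pos _ hc, ev_pos _ hc] at h1
  have e : ZMod.unitOfCoprime (t : ZMod D).val hc = t := by
    ext
    rw [ZMod.coe_unitOfCoprime, ZMod.natCast_zmod_val]
  rwa [e] at h1

theorem ev_Sf {D : ℕ} [NeZero D] {m : ℕ} (hm : m.Coprime D) {x : ℚ}
    (hx : ∃ z : ℤ, (D : ℚ) * x = z) : ev (Sf D x) m = saw m x := by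
  rw [ev_pos _ hm]
  exact Sf_apply (ZMod.coe_unitOfCoprime m hm) hx

/-- pull back to a multiple of the level -/
def pb {D L : ℕ} (h : D ∣ L) (χ : (ZMod D)ˣ → ℚ) : (ZMod L)ˣ → ℚ := fun t => χ (ZMod.unitsMap h t)

theorem ev_pb {D L : ℕ} (h : D ∣ L) (χ : (ZMod D)ˣ → ℚ) {m : ℕ} (hm : m.Coprime L) :
    ev (pb h χ) m = ev χ m := by
  rw [ev_pos _ hm, ev_pos _ (hm.coprime_dvd_right h)]
  unfold pb
  congr 1
  ext
  rw [ZMod.unitsMap_val, ZMod.coe_unitOfCoprime, ZMod.coe_unitOfCoprime]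
  exact ZMod.cast_natCast h m

/-! ## gamma monomials -/

theorem gm_pb {D L : ℕ} (hD : 0 < D) (hL : 0 < L) (h : D ∣ L) {χ : (ZMod D)ˣ → ℚ} {y : ℝ}
    (hy : (χ, y) ∈ GM D) : (pb h χ, y) ∈ GM L := by
  have : NeZero D := ⟨hD.ne'⟩
  have : NeZero L := ⟨hL.ne'⟩
  let P : (((ZMod D)ˣ → ℚ) × ℝ) →ₗ[ℚ] (((ZMod L)ˣ → ℚ) × ℝ) :=
    (LinearMap.funLeft ℚ ℚ (ZMod.unitsMap h)).prodMap LinearMap.id
  have h1 : GM D ≤ (GM L).comap P := by
    refine sup_le ?_ ?_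
    · rw [Submodule.span_le]
      rintro _ ⟨x, rfl⟩
      have hx : IsPt L (x : ℚ) := by
        obtain ⟨h2, h3, z, hz⟩ := x.2
        obtain ⟨k, hk⟩ := h
        refine ⟨h2, h3, k * z, ?_⟩
        rw [hk]
        push_cast
        rw [← hz]
        ring
      have e : pb h (Sf D (x : ℚ)) = Sf L (x : ℚ) := by
        apply eq_of_ev
        intro m hm
        rw [ev_pb h _ hm, ev_Sf (hm.coprime_dvd_right h) x.2.2.2, ev_Sf hm hx.2.2]
      show (pb h (Sf D (x : ℚ)), lg (x : ℚ)) ∈ GM L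
      rw [e]
      exact gm_sf hx
    · rintro ⟨a, b⟩ hab
      obtain ⟨h2, h3⟩ := Submodule.mem_prod.1 hab
      have h4 : a = 0 := h2
      subst h4
      exact gm_alg h3
  exact h1 hy

theorem gm_odd {D : ℕ} (hD : 0 < D) {χ : (ZMod D)ˣ → ℚ} {y : ℝ} (hy : (χ, y) ∈ GM D) :
    χ ∈ oddW D := by
  have : NeZero D := ⟨hD.ne'⟩
  have h1 : GM D ≤ (oddW D).comap (LinearMap.fst ℚ ((ZMod D)ˣ → ℚ) ℝ) := by
    refine sup_le ?_ ?_
    · rw [Submodule.span_le]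
      rintro _ ⟨x, rfl⟩
      exact Sf_odd x.2
    · rintro ⟨a, b⟩ hab
      obtain ⟨h2, h3⟩ := Submodule.mem_prod.1 hab
      have h4 : a = 0 := h2
      subst h4
      exact (oddW D).zero_mem
  exact h1 hy

theorem gm_sum {ι : Type*} (s : Finset ι) {D : ℕ} {χ : ι → ((ZMod D)ˣ → ℚ)} {y : ι → ℝ} (c : ι → ℚ)
    (h : ∀ i, (χ i, y i) ∈ GM D) : (∑ i ∈ s, c i • χ i, ∑ i ∈ s, c i • y i) ∈ GM D := by
  have h2 : (∑ x ∈ s, c x • χ x, ∑ x ∈ s, c x • y x) = ∑ x ∈ s, c x • (χ x, y x) := by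
    ext1
    · rw [Prod.fst_sum]
      rfl
    · rw [Prod.snd_sum]
      rfl
  rw [h2]
  exact Submodule.sum_mem _ fun x _ => Submodule.smul_mem _ _ (h x)

/-- the logarithms of all gamma monomials -/
noncomputable def LL : Submodule ℚ ℝ where
  carrier := {y | ∃ (D : ℕ) (χ : (ZMod D)ˣ → ℚ), 0 < D ∧ (χ, y) ∈ GM D}
  zero_mem' := ⟨1, 0, one_pos, (GM 1).zero_mem⟩
  add_mem' := by
    rintro x y ⟨D, χ, hD, h⟩ ⟨D', χ', hD', h'⟩
    have hp := Nat.mul_pos hD hD'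
    exact ⟨D * D', pb (Nat.dvd_mul_right D D') χ + pb (Nat.dvd_mul_left D' D) χ', hp,
      (GM (D * D')).add_mem (gm_pb hD hp _ h) (gm_pb hD' hp _ h')⟩
  smul_mem' := by
    rintro c x ⟨D, χ, hD, h⟩
    exact ⟨D, c • χ, hD, (GM D).smul_mem c h⟩

theorem mem_LL {y : ℝ} : y ∈ LL ↔ ∃ (D : ℕ) (χ : (ZMod D)ˣ → ℚ), 0 < D ∧ (χ, y) ∈ GM D := Iff.rfl

theorem alg_le_LL : LogAlgQ ≤ LL := fun _ hy => ⟨1, 0, one_pos, gm_alg hy⟩

theorem lg_mem_LL {D : ℕ} (hD : 0 < D) {x : ℚ} (hx : IsPt D x) : lg x ∈ LL :=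
  ⟨D, Sf D x, hD, gm_sf hx⟩

theorem exists_gm {ι : Type*} [Fintype ι] {y : ι → ℝ} (hy : ∀ i, y i ∈ LL) {N : ℕ} (hN : 0 < N) :
    ∃ (D : ℕ) (χ : ι → ((ZMod D)ˣ → ℚ)), 0 < D ∧ N ∣ D ∧ ∀ i, (χ i, y i) ∈ GM D := by
  classical
  choose D χ hD h using fun i => mem_LL.1 (hy i)
  have hp : 0 < N * ∏ i, D i := Nat.mul_pos hN (prod_pos fun i _ => hD i)
  have hdvd : ∀ i, D i ∣ N * ∏ i, D i := fun i =>
    (dvd_prod_of_mem D (mem_univ i)).trans (Nat.dvd_mul_left _ _)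
  exact ⟨N * ∏ i, D i, fun i => pb (hdvd i) (χ i), hp, Nat.dvd_mul_right _ _,
    fun i => gm_pb (hD i) hp (hdvd i) (h i)⟩

theorem linInd_chi {ι : Type*} [Fintype ι] {D : ℕ} (hD : 0 < D) {χ : ι → ((ZMod D)ˣ → ℚ)}
    {y : ι → ℝ} (h : ∀ i, (χ i, y i) ∈ GM D)
    (hli : LinearIndependent ℚ (fun i => LogAlgQ.mkQ (y i))) : LinearIndependent ℚ χ := by
  rw [Fintype.linearIndependent_iff] at hli ⊢
  intro c hc
  apply hli c
  have h1 := gm_sum univ c h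
  rw [hc] at h1
  have h2 : ∑ i, c i • y i ∈ LogAlgQ := gm_zero hD h1
  have h3 : LogAlgQ.mkQ (∑ i, c i • y i) = 0 := (Submodule.Quotient.mk_eq_zero _).2 h2
  rw [map_sum] at h3
  rw [← h3]
  exact sum_congr rfl fun i _ => (map_smul _ _ _).symm

/-- **independence**: gamma monomials, multiplicatively independent modulo algebraic numbers, are
algebraically independent -/
theorem algInd_exp (hT : TrAll) {n : ℕ} {y : Fin n → ℝ} (hy : ∀ i, y i ∈ LL)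
    (hli : LinearIndependent ℚ (fun i => LogAlgQ.mkQ (y i))) :
    AlgebraicIndependent ℚ (fun i => Real.exp (y i)) := by
  classical
  obtain ⟨D, χ, hD, h3, h⟩ := exists_gm hy (N := 3) (by norm_num)
  have hD2 : 2 < D := Nat.lt_of_lt_of_le (by norm_num) (Nat.le_of_dvd hD h3)
  have hchi := linInd_chi hD h hli
  obtain ⟨J, hJ, hJc⟩ := extract (ι := Fin n) (fun i => Real.exp (y i)) (n : ℝ) (by
    intro k θ hx
    have h1 : n ≤ k :=
      dim_le hT hD2 θ h (fun i => gm_odd hD (h i)) (fun i => mem_LogF.2 (hx i)) hchi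
    exact_mod_cast h1)
  have hJu : J = univ := by
    apply eq_univ_of_card
    apply le_antisymm (card_le_univ J)
    rw [Fintype.card_fin]
    exact_mod_cast hJc
  subst hJu
  exact hJ.comp (fun i : Fin n => (⟨i, mem_univ i⟩ : (univ : Finset (Fin n))))
    (fun i j hij => congrArg (fun x : (univ : Finset (Fin n)) => (x : Fin n)) hij)

theorem indep_exp (hT : TrAll) (s : Set ℝ) (hs : s ⊆ (LL : Set ℝ))
    (hli : LinearIndepOn ℚ LogAlgQ.mkQ s) : Mt.Indep (Real.exp '' s) := by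
  rw [Matroid.indep_iff_forall_finite_subset_indep]
  intro J hJ hfin
  obtain ⟨t, hts, rfl⟩ := Set.subset_image_iff.1 hJ
  have htf : t.Finite := Set.Finite.of_finite_image hfin Real.exp_injective.injOn
  obtain ⟨n, y, hy, rfl⟩ := htf.fin_param
  have h1 : LinearIndependent ℚ (fun i => LogAlgQ.mkQ (y i)) :=
    (linearIndepOn_range_iff hy LogAlgQ.mkQ).1 (hli.mono hts)
  have h2 := algInd_exp hT (fun i => hs (hts ⟨i, rfl⟩)) h1
  have h3 : Real.exp '' Set.range y = Set.range (fun i => Real.exp (y i)) := by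
    rw [← Set.range_comp]
    rfl
  rw [h3]
  exact h2.coe_range

theorem logAlg_le_Lc (s : Set ℝ) : LogAlgQ ≤ Lc s := by
  intro y hy
  have h1 : IsAlgebraic ℚ (Real.exp y) := hy
  rw [mem_Lc, mem_cl]
  exact h1.extendScalars (FaithfulSMul.algebraMap_injective ℚ (Algebra.adjoin ℚ s))

end Pool.Agent.LWP
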