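import Mathlib

/-!
Lang's conjecture with `π`, part 4: the transcendence degree of a subfield of the reals generated by
a set is the rank of the set.
-/

set_option autoImplicit false

namespace Pool.Agent.LWP

open Set AlgebraicIndependent

/-- the elements algebraic over a set of real numbers as a field -/
noncomputable def cF (s : Set ℝ) : IntermediateField ℚ ℝ where
  carrier := {z | IsAlgebraic (Algebra.adjoin ℚ s) z}
  mul_mem' := fun h h' => h.mul h'
  one_mem' := isAlgebraic_one
  add_mem' := fun h h' => h.add h'
  zero_mem' := isAlgebraic_zero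
  algebraMap_mem' := fun q => by
    have h : IsAlgebraic ℚ (algebraMap ℚ ℝ q) := isAlgebraic_algebraMap q
    exact h.extendScalars (FaithfulSMul.algebraMap_injective ℚ (Algebra.adjoin ℚ s))
  inv_mem' := fun _ h => h.inv

theorem trdeg_adjoin {E B : Set ℝ} (hB : (AlgebraicIndependent.matroid ℚ ℝ).Indep B) (hBE : B ⊆ E)
    (hEB : E ⊆ (AlgebraicIndependent.matroid ℚ ℝ).closure B) :
    Algebra.trdeg ℚ (IntermediateField.adjoin ℚ E) = Cardinal.mk B := by
  set K := IntermediateField.adjoin ℚ E with hK
  have hKc : K ≤ cF B := by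
    rw [hK, IntermediateField.adjoin_le_iff]
    intro z hz
    have h1 := hEB hz
    rw [matroid_closure_eq] at h1
    exact h1
  let b : B → K := fun z => ⟨z, IntermediateField.subset_adjoin ℚ E (hBE z.2)⟩
  have hb : AlgebraicIndependent ℚ b := by
    have h1 : AlgebraicIndependent ℚ (K.val ∘ b) := hB
    exact h1.of_comp K.val
  have htb : IsTranscendenceBasis ℚ b := by
    rw [hb.isTranscendenceBasis_iff_isAlgebraic]
    refine ⟨fun z => ?_⟩
    by_contra hz
    have h1 := (hb.option_iff_transcendental z).2 hz
    have h2 := h1.map' (f := K.val) K.val.injective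
    have h3 : AlgebraicIndependent ℚ
        (fun o : Option B => o.elim (z : ℝ) (fun y : B => (y : ℝ))) := by
      convert! h2 using 1
      funext o
      cases o <;> rfl
    have h4 : AlgebraicIndependent ℚ (fun y : B => (y : ℝ)) := hB
    have h5 := (h4.option_iff_transcendental (z : ℝ)).1 h3
    apply h5
    have h6 := hKc z.2
    rw [Subtype.range_coe]
    exact h6
  have h := htb.cardinalMk_eq_trdeg
  exact h.symm

/-- the transcendence degree is the rank -/
theorem trdeg_of_rank {E : Set ℝ} {n : ℕ} (h : (AlgebraicIndependent.matroid ℚ ℝ).eRk E = n) :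
    Algebra.trdeg ℚ (IntermediateField.adjoin ℚ E) = n := by
  obtain ⟨B, hB⟩ := (AlgebraicIndependent.matroid ℚ ℝ).exists_isBasis E
  have h1 : B.encard = n := by rw [← h, hB.eRk_eq_encard]
  have h2 : B.Finite := finite_of_encard_eq_coe h1
  rw [trdeg_adjoin hB.indep hB.subset hB.subset_closure]
  have h3 : B.ncard = n := by
    rw [← h2.cast_ncard_eq] at h1
    exact_mod_cast h1
  have := h2.to_subtype
  rw [← h3, ← Nat.card_coe_set_eq]
  exact (Nat.cast_card).symm

end Pool.Agent.LWP
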