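import Pool.Agent.LWP.Exc
import Pool.Agent.LWP.Trd

/-!
Lang's conjecture with `π`, part 5: the main theorem.
-/

set_option autoImplicit false

namespace Pool.Agent.LWP

open Finset IntermediateField Pool.Agent.Helper99.Rohr Pool.Agent.ROH Pool.Agent.ROH8 Pool.Agent.RHK Pool.Agent.RCM

/-- `π` and the gamma values of a tuple -/
noncomputable def pg {k : ℕ} (x : Fin k → ℚ) : Option (Fin k) → ℝ :=
  fun o => o.elim Real.pi fun i => Real.Gamma (x i)

/-- `Γ(y)/√π` for the fractional parts `y` of a tuple -/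
noncomputable def gg {k : ℕ} (x : Fin k → ℚ) : Fin k → ℝ :=
  fun i => Real.exp (lg (Int.fract (x i)))

theorem NI.linInd (hT : TrAll) {M k : ℕ} {x : Fin k → ℚ} (hx : NI M x)
    (hli : LinearIndependent ℚ (fun i => cf M (x i))) :
    LinearIndependent ℚ (fun i => LogAlgQ.mkQ (lg (Int.fract (x i)))) := by
  have hM := hx.1
  have hL : 0 < 3 * M := by omega
  have hL2 : 2 < 3 * M := by omega
  have hML : M ∣ 3 * M := Nat.dvd_mul_left _ _
  rw [Fintype.linearIndependent_iff] at hli ⊢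
  intro c hc
  apply hli c
  have h1 : ∑ i, c i • lg (Int.fract (x i)) ∈ LogAlgQ := by
    rw [← Submodule.Quotient.mk_eq_zero, ← Submodule.mkQ_apply, map_sum, ← hc]
    exact sum_congr rfl fun i _ => map_smul _ _ _
  have h2 := gm_sum univ c (χ := fun i => Sf (3 * M) (Int.fract (x i)))
    (y := fun i => lg (Int.fract (x i))) (fun i => gm_sf (hx.pt hML i))
  have h3 := gm_inj hT hL2 h2 h1
  funext m
  obtain ⟨m', hm', hmm⟩ := lift_coprime (M := 3 * M) hM hL m.2
  have h4 : ev (∑ i, c i • Sf (3 * M) (Int.fract (x i))) m' = 0 := by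
    rw [h3, ev_pos _ hm']
    rfl
  rw [ev_sum] at h4
  rw [Finset.sum_apply, Pi.zero_apply, ← h4]
  refine sum_congr rfl fun i _ => ?_
  rw [hx.saw hL hML i hm', Pi.smul_apply, smul_eq_mul]
  unfold cf
  rw [ROH.fract_congr hmm (hx.2.1 i)]

/-! ## closures -/

theorem cl_rat (s : Set ℝ) (q : ℚ) : (q : ℝ) ∈ Mt.closure s := by
  rw [mem_cl]
  have h : IsAlgebraic ℚ ((q : ℚ) : ℝ) := isAlgebraic_algebraMap q
  exact h.extendScalars (FaithfulSMul.algebraMap_injective ℚ (Algebra.adjoin ℚ s))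

theorem cl_sqrt {s : Set ℝ} (h : Real.pi ∈ Mt.closure s) : Real.sqrt Real.pi ∈ Mt.closure s := by
  apply cl_of_pow two_pos
  rw [Real.sq_sqrt Real.pi_pos.le]
  exact h

theorem gam_eq {M k : ℕ} {x : Fin k → ℚ} (hx : NI M x) (i : Fin k) :
    ∃ q : ℚ, q ≠ 0 ∧ Real.Gamma (x i) = q * (gg x i * Real.sqrt Real.pi) := by
  obtain ⟨q, hq, h⟩ := gamma_fract (hx.2.2 i)
  refine ⟨q, hq, ?_⟩
  rw [h]
  unfold gg
  rw [RCM.exp_lg (hx.pt (dvd_refl M) i).1, div_mul_cancel₀ _ (Real.sqrt_pos.2 Real.pi_pos).ne']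

theorem cl_eq {M k : ℕ} {x : Fin k → ℚ} (hx : NI M x) :
    Mt.closure (Set.range (pg x)) = Mt.closure (insert Real.pi (Set.range (gg x))) := by
  apply Set.Subset.antisymm
  · apply Matroid.closure_subset_closure_of_subset_closure
    rintro _ ⟨o, rfl⟩
    have hpi : Real.pi ∈ Mt.closure (insert Real.pi (Set.range (gg x))) :=
      subset_cl _ (Set.mem_insert _ _)
    cases o with
    | none => exact hpi
    | some i =>
      obtain ⟨q, hq, h⟩ := gam_eq hx i
      show Real.Gamma (x i) ∈ _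
      rw [h]
      exact cl_mul (cl_rat _ q) (cl_mul (subset_cl _ (Set.mem_insert_of_mem _ ⟨i, rfl⟩))
        (cl_sqrt hpi))
  · apply Matroid.closure_subset_closure_of_subset_closure
    rintro z (rfl | ⟨i, rfl⟩)
    · exact subset_cl _ ⟨none, rfl⟩
    · obtain ⟨q, hq, h⟩ := gam_eq hx i
      have hq' : (q : ℝ) ≠ 0 := by exact_mod_cast hq
      have hs : Real.sqrt Real.pi ≠ 0 := (Real.sqrt_pos.2 Real.pi_pos).ne'
      have h1 : gg x i = Real.Gamma (x i) * ((q : ℝ) * Real.sqrt Real.pi)⁻¹ := by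
        rw [h]
        field_simp
      rw [h1]
      exact cl_mul (subset_cl _ ⟨some i, rfl⟩) (cl_inv (cl_mul (cl_rat _ q)
        (cl_sqrt (subset_cl _ ⟨none, rfl⟩))))

theorem PT_iff {k : ℕ} (x : Fin k → ℚ) :
    PT Real.pi (TT x) ↔ Real.pi ∈ Mt.closure (Set.range (gg x)) := by
  have himg : Real.exp '' (Set.range fun i => lg (Int.fract (x i))) = Set.range (gg x) := by
    rw [← Set.range_comp]
    rfl
  constructor
  · intro h
    rw [← himg]
    exact PT.of_span logAlg_le_Lc h (le_refl _)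
  · intro h
    refine cl_mono ?_ h
    rw [← himg]
    exact Set.image_mono fun y hy => Submodule.mem_sup_left (Submodule.subset_span hy)

theorem range_pg {k : ℕ} (x : Fin k → ℚ) :
    Set.range (fun o : Option (Fin k) => o.elim Real.pi (gg x)) =
      insert Real.pi (Set.range (gg x)) := by
  ext z
  constructor
  · rintro ⟨o, rfl⟩
    cases o with
    | none => exact Set.mem_insert _ _
    | some i => exact Set.mem_insert_of_mem _ ⟨i, rfl⟩
  · rintro (rfl | ⟨i, rfl⟩)
    · exact ⟨none, rfl⟩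
    · exact ⟨some i, rfl⟩

theorem NI.gg_ind (hT : TrAll) {M k : ℕ} {x : Fin k → ℚ} (hx : NI M x)
    (hli : LinearIndependent ℚ (fun i => cf M (x i))) : AlgebraicIndependent ℚ (gg x) :=
  algInd_exp hT (fun i => hx.TT_le (Submodule.mem_sup_left (Submodule.subset_span ⟨i, rfl⟩)))
    (hx.linInd hT hli)

theorem gg_iff {k : ℕ} {x : Fin k → ℚ} (hG : AlgebraicIndependent ℚ (gg x)) :
    AlgebraicIndependent ℚ (fun o : Option (Fin k) => o.elim Real.pi (gg x)) ↔
      ¬ PT Real.pi (TT x) := by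
  rw [hG.option_iff_transcendental, PT_iff, mem_cl]
  rfl

theorem pg_iff (hT : TrAll) {M k : ℕ} {x : Fin k → ℚ} (hx : NI M x)
    (hli : LinearIndependent ℚ (fun i => cf M (x i))) :
    AlgebraicIndependent ℚ (pg x) ↔ ¬ PT Real.pi (TT x) := by
  have hcl : Mt.closure (Set.range (pg x)) =
      Mt.closure (Set.range (fun o : Option (Fin k) => o.elim Real.pi (gg x))) := by
    rw [range_pg]
    exact cl_eq hx
  rw [← gg_iff (hx.gg_ind hT hli)]
  exact ⟨ind_congr hcl, ind_congr hcl.symm⟩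

/-- the class functions of algebraically independent values are linearly independent -/
theorem li_of_pg (hT : TrAll) {M k : ℕ} {x : Fin k → ℚ} (hx : NI M x)
    (h : AlgebraicIndependent ℚ (pg x)) : LinearIndependent ℚ (fun i => cf M (x i)) := by
  let F : Option (Fin k) → ℝ := fun o => o.elim Real.pi fun i =>
    Real.Gamma (x i) / Real.sqrt Real.pi
  have hcl : Mt.closure (Set.range (pg x)) = Mt.closure (Set.range F) := by
    apply Set.Subset.antisymm
    · apply Matroid.closure_subset_closure_of_subset_closure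
      rintro _ ⟨o, rfl⟩
      have hpi : Real.pi ∈ Mt.closure (Set.range F) := subset_cl _ ⟨none, rfl⟩
      cases o with
      | none => exact hpi
      | some i =>
        have h1 : Real.Gamma (x i) = Real.Gamma (x i) / Real.sqrt Real.pi * Real.sqrt Real.pi := by
          rw [div_mul_cancel₀ _ (Real.sqrt_pos.2 Real.pi_pos).ne']
        show Real.Gamma (x i) ∈ _
        rw [h1]
        exact cl_mul (subset_cl _ ⟨some i, rfl⟩) (cl_sqrt hpi)
    · apply Matroid.closure_subset_closure_of_subset_closure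
      rintro _ ⟨o, rfl⟩
      have hpi : Real.pi ∈ Mt.closure (Set.range (pg x)) := subset_cl _ ⟨none, rfl⟩
      cases o with
      | none => exact hpi
      | some i =>
        show Real.Gamma (x i) / Real.sqrt Real.pi ∈ _
        rw [div_eq_mul_inv]
        exact cl_mul (subset_cl _ ⟨some i, rfl⟩) (cl_inv (cl_sqrt hpi))
  have h1 := ind_congr hcl h
  have h2 := h1.comp some (Option.some_injective _)
  exact (lang_mod_pi hT x hx.1 hx.2.1 hx.2.2).1 h2

/-! ## one level -/

/-- the field generated by `π` and the `Γ(j/D)`, `0 < j < D` -/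
noncomputable def gamField (D : ℕ) : IntermediateField ℚ ℝ :=
  IntermediateField.adjoin ℚ (insert Real.pi {z | ∃ j : ℕ, 0 < j ∧ j < D ∧
    z = Real.Gamma ((j : ℝ) / D)})

/-- the tuple of a finite set of numerators -/
noncomputable def xJ (D : ℕ) (J : Finset ℕ) : Fin J.card → ℚ :=
  fun i => (((J.equivFin.symm i : J) : ℕ) : ℚ) / D

section

variable {D : ℕ} {J : Finset ℕ}

theorem xJ_pt (h : Ind D J) (i : Fin J.card) : IsPt D (xJ D J i) := by
  have h1 := h.mem _ (J.equivFin.symm i).2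
  exact pt_div h1.1 h1.2

theorem fract_pt {D : ℕ} {y : ℚ} (h : IsPt D y) : Int.fract y = y :=
  Int.fract_eq_self.2 ⟨h.1.le, h.2.1⟩

theorem xJ_NI (h : Ind D J) : NI D (xJ D J) := by
  refine ⟨by have := h.two; omega, fun i => (xJ_pt h i).2.2, fun i z hz => ?_⟩
  have h1 := xJ_pt h i
  have h2 := fract_pt h1
  rw [hz, Int.fract_intCast] at h2
  have h3 := h1.1
  rw [hz, ← h2] at h3
  exact lt_irrefl _ h3

theorem gg_xJ (h : Ind D J) (i : Fin J.card) :
    gg (xJ D J) i = Real.Gamma (((J.equivFin.symm i : J) : ℕ) / D) / Real.sqrt Real.pi := by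
  unfold gg
  rw [fract_pt (xJ_pt h i), RCM.exp_lg (xJ_pt h i).1]
  unfold xJ
  push_cast
  rfl

theorem gg_xJ_ind (h : Ind D J) : AlgebraicIndependent ℚ (gg (xJ D J)) := by
  have h1 := h.ind.comp J.equivFin.symm J.equivFin.symm.injective
  have h2 : gg (xJ D J) =
      (fun j : J => Real.Gamma ((j : ℕ) / D) / Real.sqrt Real.pi) ∘ J.equivFin.symm := by
    funext i
    exact gg_xJ h i
  rw [h2]
  exact h1

theorem xJ_li (h : Ind D J) : LinearIndependent ℚ (fun i => cf D (xJ D J i)) := by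
  have hD0 : 0 < D := by have := h.two; omega
  have : NeZero D := ⟨hD0.ne'⟩
  have h1 : AlgebraicIndependent ℚ
      (fun i => Real.Gamma (xJ D J i) / Real.sqrt Real.pi) := by
    have h2 : (fun i => Real.Gamma (xJ D J i) / Real.sqrt Real.pi) = gg (xJ D J) := by
      funext i
      unfold gg
      rw [fract_pt (xJ_pt h i), RCM.exp_lg (xJ_pt h i).1]
    rw [h2]
    exact gg_xJ_ind h
  have h3 := linInd_of_algInd hD0 (xJ_pt h) h1
  rw [Fintype.linearIndependent_iff] at h3 ⊢
  intro c hc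
  apply h3 c
  apply eq_of_ev
  intro m hm
  have h4 := congrFun hc ⟨m, hm⟩
  rw [Finset.sum_apply, Pi.zero_apply] at h4
  have h5 : ev (0 : (ZMod D)ˣ → ℚ) m = 0 := by
    rw [ev_pos _ hm]
    rfl
  rw [ev_sum, h5, ← h4]
  refine sum_congr rfl fun i _ => ?_
  rw [ev_Sf hm (xJ_pt h i).2.2]
  rfl

/-- the odd functions are spanned by those of a full independent set -/
theorem lg_mem_TT (h : Ind D J) (hc : D.totient ≤ 2 * J.card) {y : ℚ} (hy : IsPt D y) :
    lg y ∈ TT (xJ D J) := by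
  have hD0 : 0 < D := by have := h.two; omega
  have : NeZero D := ⟨hD0.ne'⟩
  have h1 : Sf D y ∈ spJ D J := by
    rw [h.spJ_eq hc]
    exact Sf_odd hy
  obtain ⟨c, hcy⟩ := mem_spJ h1
  have hJ : ∀ j : J, (Sf D (((j : ℕ) : ℚ) / D), lg (((j : ℕ) : ℚ) / D)) ∈ GM D := fun j =>
    gm_sf (pt_div (h.mem j j.2).1 (h.mem j j.2).2)
  have h2 := gm_sum univ (fun j : J => c j) hJ
  have h3 := (GM D).sub_mem (gm_sf hy) h2
  have h4 : ∑ j : J, c j • Sf D (((j : ℕ) : ℚ) / D) = Sf D y := by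
    rw [hcy]
    exact Finset.sum_coe_sort J (fun j => c j • Sf D ((j : ℚ) / D))
  rw [Prod.mk_sub_mk, h4, sub_self] at h3
  have h5 := gm_zero hD0 h3
  have h6 : lg y = ∑ j : J, c j • lg (((j : ℕ) : ℚ) / D) +
      (lg y - ∑ j : J, c j • lg (((j : ℕ) : ℚ) / D)) := by ring
  rw [h6]
  refine Submodule.add_mem _ (Submodule.mem_sup_left ?_) (Submodule.mem_sup_right h5)
  refine Submodule.sum_mem _ fun j _ => Submodule.smul_mem _ _ (Submodule.subset_span ?_)
  refine ⟨J.equivFin j, ?_⟩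
  show lg (Int.fract (xJ D J (J.equivFin j))) = _
  rw [fract_pt (xJ_pt h _)]
  unfold xJ
  rw [Equiv.symm_apply_apply]

theorem cl_level (h : Ind D J) (hc : D.totient ≤ 2 * J.card) :
    Mt.closure (insert Real.pi {z | ∃ j : ℕ, 0 < j ∧ j < D ∧ z = Real.Gamma ((j : ℝ) / D)}) =
      Mt.closure (insert Real.pi (Set.range (gg (xJ D J)))) := by
  have hD0 : 0 < D := by have := h.two; omega
  apply Set.Subset.antisymm
  · apply Matroid.closure_subset_closure_of_subset_closure
    have hpi : Real.pi ∈ Mt.closure (insert Real.pi (Set.range (gg (xJ D J)))) :=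
      subset_cl _ (Set.mem_insert _ _)
    rintro z (rfl | ⟨j, h0, h1, rfl⟩)
    · exact hpi
    · have hpt := pt_div h0 h1
      have h2 := lg_mem_TT h hc hpt
      have himg : Real.exp '' (Set.range fun i => lg (Int.fract (xJ D J i))) =
          Set.range (gg (xJ D J)) := by
        rw [← Set.range_comp]
        rfl
      have h3 : TT (xJ D J) ≤ Lc (insert Real.pi (Set.range (gg (xJ D J)))) := by
        refine sup_le ?_ (logAlg_le_Lc _)
        rw [Submodule.span_le]
        rintro _ ⟨i, rfl⟩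
        exact subset_cl _ (Set.mem_insert_of_mem _ ⟨i, rfl⟩)
      have h4 := h3 h2
      rw [mem_Lc, RCM.exp_lg hpt.1] at h4
      have h5 : Real.Gamma ((j : ℝ) / D) =
          Real.Gamma ((((j : ℕ) : ℚ) / D : ℚ) : ℝ) / Real.sqrt Real.pi * Real.sqrt Real.pi := by
        rw [div_mul_cancel₀ _ (Real.sqrt_pos.2 Real.pi_pos).ne']
        push_cast
        rfl
      rw [h5]
      exact cl_mul h4 (cl_sqrt hpi)
  · apply Matroid.closure_subset_closure_of_subset_closure
    rintro z (rfl | ⟨i, rfl⟩)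
    · exact subset_cl _ (Set.mem_insert _ _)
    · rw [gg_xJ h i, div_eq_mul_inv]
      have h1 := h.mem _ (J.equivFin.symm i).2
      exact cl_mul (subset_cl _ (Set.mem_insert_of_mem _ ⟨_, h1.1, h1.2, rfl⟩))
        (cl_inv (cl_sqrt (subset_cl _ (Set.mem_insert _ _))))

theorem trdeg_level (h : Ind D J) (hc : D.totient ≤ 2 * J.card) :
    (PT Real.pi (TT (xJ D J)) → Algebra.trdeg ℚ (gamField D) = (D.totient / 2 : ℕ)) ∧
    (¬ PT Real.pi (TT (xJ D J)) → Algebra.trdeg ℚ (gamField D) = (1 + D.totient / 2 : ℕ)) := by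
  have hcard : J.card = D.totient / 2 := by
    have := h.card_le
    omega
  have hG := gg_xJ_ind h
  constructor
  · intro hp
    apply trdeg_of_rank
    have h1 : Mt.closure (insert Real.pi (Set.range (gg (xJ D J)))) =
        Mt.closure (Set.range (gg (xJ D J))) := by
      apply Set.Subset.antisymm
      · apply Matroid.closure_subset_closure_of_subset_closure
        exact Set.insert_subset ((PT_iff _).1 hp) (subset_cl _)
      · exact cl_mono (Set.subset_insert _ _)
    rw [← Matroid.eRk_closure_eq]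
    have h2 := cl_level h hc
    rw [h1] at h2
    have h3 : Mt.eRk (Mt.closure (Set.range (gg (xJ D J)))) = (D.totient / 2 : ℕ) := by
      rw [Matroid.eRk_closure_eq]
      have h4 : Mt.Indep (Set.range (gg (xJ D J))) := hG.coe_range
      rw [h4.eRk_eq_encard, ← Set.image_univ, hG.injective.encard_image, Set.encard_univ, ← hcard]
      simp
    rw [← h3]
    exact congrArg Mt.eRk h2
  · intro hp
    apply trdeg_of_rank
    rw [← Matroid.eRk_closure_eq]
    have h2 := cl_level h hc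
    have hF := (gg_iff hG).2 hp
    have h3 : Mt.eRk (Mt.closure (insert Real.pi (Set.range (gg (xJ D J))))) =
        (1 + D.totient / 2 : ℕ) := by
      rw [← range_pg, Matroid.eRk_closure_eq]
      have h4 : Mt.Indep (Set.range (fun o : Option (Fin J.card) =>
        o.elim Real.pi (gg (xJ D J)))) := hF.coe_range
      rw [h4.eRk_eq_encard, ← Set.image_univ, hF.injective.encard_image, Set.encard_univ, ← hcard]
      simp [add_comm]
    rw [← h3]
    exact congrArg Mt.eRk h2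

/-- functions of level dividing `D` are class functions of level `D` -/
theorem inSp_level (h : Ind D J) (hc : D.totient ≤ 2 * J.card) {f d : ℕ} {U : Fin d → ℕ → ℚ}
    (hfD : f ∣ D) (hper : ∀ (j : Fin d) (m m' : ℕ), m ≡ m' [MOD f] → U j m = U j m')
    (hodd : ∀ (j : Fin d) (m m' : ℕ), m.Coprime f → f ∣ m + m' → U j m' = -U j m) :
    InSp U D (xJ D J) := by
  have hD0 : 0 < D := by have := h.two; omega
  have : NeZero D := ⟨hD0.ne'⟩
  intro j
  let u : (ZMod D)ˣ → ℚ := fun t => U j (t : ZMod D).val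
  have hu : u ∈ oddW D := by
    intro t
    exact hodd j _ _ ((ZMod.val_coe_unit_coprime t).coprime_dvd_right hfD)
      (hfD.trans (unit_neg_val t))
  rw [← h.spJ_eq hc] at hu
  obtain ⟨c, hcu⟩ := mem_spJ hu
  have h1 : (fun m : {m : ℕ // m.Coprime D} => U j m) =
      ∑ i : J, c i • cf D (((i : ℕ) : ℚ) / D) := by
    funext m
    obtain ⟨t, ht⟩ := unit_of m.2
    have h2 : ((t : ZMod D).val : ℕ) ≡ (m : ℕ) [MOD D] := by
      rw [← ZMod.natCast_eq_natCast_iff, ZMod.natCast_zmod_val]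
      exact ht
    have h3 : U j (m : ℕ) = u t := hper j _ _ (h2.of_dvd hfD).symm
    rw [h3, hcu, Finset.sum_apply, Finset.sum_apply,
      ← Finset.sum_coe_sort J (fun i => (c i • Sf D ((i : ℚ) / D)) t)]
    refine sum_congr rfl fun i _ => ?_
    rw [Pi.smul_apply, Pi.smul_apply,
      Sf_apply ht (pt_div (h.mem i i.2).1 (h.mem i i.2).2).2.2]
    rfl
  rw [h1]
  refine Submodule.sum_mem _ fun i _ => Submodule.smul_mem _ _ (Submodule.subset_span ?_)
  refine ⟨J.equivFin i, ?_⟩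
  show cf D (xJ D J (J.equivFin i)) = _
  unfold xJ
  rw [Equiv.symm_apply_apply]

end

/-! ## Chudnovsky's theorems -/

theorem not_PT {y : ℚ} (h0 : 0 < y) (h1 : y < 1) (h : lg y ∉ LogF ℚ⟮(Real.pi : ℂ)⟯) :
    ¬ PT Real.pi (TT ![y]) := by
  rw [PT_iff]
  have hgg : Set.range (gg ![y]) = {Real.exp (lg y)} := by
    rw [Set.range_unique]
    unfold gg
    have : Int.fract y = y := Int.fract_eq_self.2 ⟨h0.le, h1⟩
    simp [this]
  rw [hgg]
  have hT : Transcendental ℚ⟮(Real.pi : ℂ)⟯ ((Real.exp (lg y) : ℝ) : ℂ) := by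
    intro h2
    exact h (mem_LogF.2 h2)
  have h2 := GP.DedM.algInd (GP.DedM.pi_transcendental GP.DedM.thmAll) hT
  have h3 := h2.transcendental_adjoin (s := {1}) (i := 0) (by simp)
  rw [Set.image_singleton] at h3
  rw [mem_cl]
  exact h3

theorem no3 {f d : ℕ} {U : Fin d → ℕ → ℚ} (hf : f ∣ 3)
    (hper : ∀ (j : Fin d) (m m' : ℕ), m ≡ m' [MOD f] → U j m = U j m')
    (hodd : ∀ (j : Fin d) (m m' : ℕ), m.Coprime f → f ∣ m + m' → U j m' = -U j m) :
    InSp U 3 ![(1 / 3 : ℚ)] := by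
  intro j
  have h1 : (fun m : {m : ℕ // m.Coprime 3} => U j m) = (-6 * U j 1) • cf 3 (1 / 3) := by
    funext m
    have h2 : cf 3 (1 / 3) m = (((m : ℕ) % 3 : ℕ) : ℚ) / 3 - 1 / 2 := by
      unfold cf
      have h3 : ((m : ℕ) : ℚ) * (1 / 3) = ((m : ℕ) : ℚ) / (3 : ℕ) := by push_cast; ring
      rw [h3, Int.fract_div_natCast_eq_div_natCast_mod]
      push_cast
      rfl
    rw [Pi.smul_apply, smul_eq_mul, h2]
    have hm := m.2
    have h12 : (m : ℕ) % 3 = 1 ∨ (m : ℕ) % 3 = 2 := by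
      have h3 : (m : ℕ) % 3 ≠ 0 := by
        intro h0
        have h4 : 3 ∣ (m : ℕ) := Nat.dvd_of_mod_eq_zero h0
        have h5 := Nat.dvd_gcd h4 (dvd_refl 3)
        rw [hm] at h5
        omega
      omega
    rcases h12 with h3 | h3
    · have h4 : (m : ℕ) ≡ 1 [MOD 3] := h3
      rw [hper j _ _ (h4.of_dvd hf), h3]
      push_cast
      ring
    · have h4 : (m : ℕ) ≡ 2 [MOD 3] := h3
      rw [hper j _ _ (h4.of_dvd hf), hodd j 1 2 (Nat.coprime_one_left _) hf, h3]
      push_cast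
      ring
  rw [h1]
  exact Submodule.smul_mem _ _ (Submodule.subset_span ⟨0, rfl⟩)

theorem no4 {f d : ℕ} {U : Fin d → ℕ → ℚ} (hf : f ∣ 4)
    (hper : ∀ (j : Fin d) (m m' : ℕ), m ≡ m' [MOD f] → U j m = U j m')
    (hodd : ∀ (j : Fin d) (m m' : ℕ), m.Coprime f → f ∣ m + m' → U j m' = -U j m) :
    InSp U 4 ![(1 / 4 : ℚ)] := by
  intro j
  have h1 : (fun m : {m : ℕ // m.Coprime 4} => U j m) = (-4 * U j 1) • cf 4 (1 / 4) := by
    funext m
    have h2 : cf 4 (1 / 4) m = (((m : ℕ) % 4 : ℕ) : ℚ) / 4 - 1 / 2 := by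
      unfold cf
      have h3 : ((m : ℕ) : ℚ) * (1 / 4) = ((m : ℕ) : ℚ) / (4 : ℕ) := by push_cast; ring
      rw [h3, Int.fract_div_natCast_eq_div_natCast_mod]
      push_cast
      rfl
    rw [Pi.smul_apply, smul_eq_mul, h2]
    have hm := m.2
    have h12 : (m : ℕ) % 4 = 1 ∨ (m : ℕ) % 4 = 3 := by
      have h3 : (m : ℕ) % 2 ≠ 0 := by
        intro h0
        have h4 : 2 ∣ (m : ℕ) := Nat.dvd_of_mod_eq_zero h0
        have h5 := Nat.dvd_gcd h4 (show 2 ∣ 4 by norm_num)
        rw [hm] at h5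
        omega
      omega
    rcases h12 with h3 | h3
    · have h4 : (m : ℕ) ≡ 1 [MOD 4] := h3
      rw [hper j _ _ (h4.of_dvd hf), h3]
      push_cast
      ring
    · have h4 : (m : ℕ) ≡ 3 [MOD 4] := h3
      rw [hper j _ _ (h4.of_dvd hf), hodd j 1 3 (Nat.coprime_one_left _) hf, h3]
      push_cast
      ring
  rw [h1]
  exact Submodule.smul_mem _ _ (Submodule.subset_span ⟨0, rfl⟩)

theorem NI3 : NI 3 ![(1 / 3 : ℚ)] := by
  refine ⟨by norm_num, fun i => ?_, fun i z h => ?_⟩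
  · fin_cases i
    exact ⟨1, by norm_num⟩
  · fin_cases i
    have h1 : (1 / 3 : ℚ) = z := h
    have h2 : (1 : ℚ) = ((3 * z : ℤ) : ℚ) := by push_cast; linarith
    have h3 : (1 : ℤ) = 3 * z := by exact_mod_cast h2
    omega

theorem NI4 : NI 4 ![(1 / 4 : ℚ)] := by
  refine ⟨by norm_num, fun i => ?_, fun i z h => ?_⟩
  · fin_cases i
    exact ⟨1, by norm_num⟩
  · fin_cases i
    have h1 : (1 / 4 : ℚ) = z := h
    have h2 : (1 : ℚ) = ((4 * z : ℤ) : ℚ) := by push_cast; linarith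
    have h3 : (1 : ℤ) = 4 * z := by exact_mod_cast h2
    omega

/-! ## the main theorem -/

/-- **Lang's conjecture with `π`, up to one space of exceptions** -/
theorem lang_pi (hT : TrAll)
    (hI : ∀ D : ℕ, 2 < D → ∃ J : Finset ℕ, Ind D J ∧ D.totient ≤ 2 * J.card) :
    ((∀ (k : ℕ) (x : Fin k → ℚ) (M : ℕ), NI M x →
        (AlgebraicIndependent ℚ (pg x) ↔ LinearIndependent ℚ (fun i => cf M (x i)))) ∧
      ∀ D : ℕ, 3 ≤ D → Algebra.trdeg ℚ (gamField D) = (1 + D.totient / 2 : ℕ)) ∨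
    ∃ (f d : ℕ) (U : Fin d → ℕ → ℚ), 5 ≤ f ∧ f % 4 ≠ 2 ∧ 0 < d ∧
      (∀ (j : Fin d) (m m' : ℕ), m ≡ m' [MOD f] → U j m = U j m') ∧
      LinearIndependent ℚ (fun (j : Fin d) (m : {m : ℕ // m.Coprime f}) => U j m) ∧
      (∀ (k : ℕ) (x : Fin k → ℚ) (M : ℕ), NI M x →
        (AlgebraicIndependent ℚ (pg x) ↔
          LinearIndependent ℚ (fun i => cf M (x i)) ∧ ¬ (f ∣ M ∧ InSp U M x))) ∧
      ∀ D : ℕ, 3 ≤ D → Algebra.trdeg ℚ (gamField D) =
        (if f ∣ D then D.totient / 2 else 1 + D.totient / 2 : ℕ) := by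
  classical
  by_cases hex : ∃ (M k : ℕ) (x : Fin k → ℚ), NI M x ∧
      LinearIndependent ℚ (fun i => cf M (x i)) ∧ PT Real.pi (TT x)
  · right
    obtain ⟨M0, k0, x0, hx0, hli0, hp0⟩ := hex
    have hfin : FiniteDimensional ℚ ((TT x0).map LogAlgQ.mkQ) := by
      have h1 : (TT x0).map LogAlgQ.mkQ ≤ Submodule.span ℚ
          (LogAlgQ.mkQ '' (Set.range fun i => lg (Int.fract (x0 i)))) := by
        unfold TT
        rw [Submodule.map_sup, Submodule.map_span]
        refine sup_le (le_refl _) ?_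
        rintro _ ⟨y, hy, rfl⟩
        have h3 : LogAlgQ.mkQ y = 0 := (Submodule.Quotient.mk_eq_zero _).2 hy
        rw [h3]
        exact Submodule.zero_mem _
      have h2 : FiniteDimensional ℚ (Submodule.span ℚ
          (LogAlgQ.mkQ '' (Set.range fun i => lg (Int.fract (x0 i))))) :=
        FiniteDimensional.span_of_finite ℚ ((Set.finite_range _).image _)
      exact Submodule.finiteDimensional_of_le h1
    obtain ⟨S, hAS, hST, hpS, hS⟩ := exists_least (A := LogAlgQ) (L := LL) logAlg_le_Lc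
      (indep_exp hT) (alg_le_TT x0) hx0.TT_le hp0 hfin
    have hfS : FiniteDimensional ℚ (S.map LogAlgQ.mkQ) :=
      Submodule.finiteDimensional_of_le (Submodule.map_mono hST)
    set d := Module.finrank ℚ (S.map LogAlgQ.mkQ) with hd
    let b := Module.finBasis ℚ (S.map LogAlgQ.mkQ)
    have hb : ∀ j : Fin d, ∃ y ∈ S, LogAlgQ.mkQ y = (b j : ℝ ⧸ LogAlgQ) := fun j => (b j).2
    choose y hyS hyb using hb
    have hliy : LinearIndependent ℚ (fun j => LogAlgQ.mkQ (y j)) := by
      have h1 := b.linearIndependent.map' (S.map LogAlgQ.mkQ).subtype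
        (Submodule.ker_subtype _)
      have h2 : (fun j => LogAlgQ.mkQ (y j)) = (S.map LogAlgQ.mkQ).subtype ∘ b := by
        funext j
        exact hyb j
      rw [h2]
      exact h1
    have hSspan : ∀ T : Submodule ℚ ℝ, LogAlgQ ≤ T → (S ≤ T ↔ ∀ j, y j ∈ T) := by
      intro T hT'
      constructor
      · intro h j
        exact h (hyS j)
      · intro h w hw
        have h1 : LogAlgQ.mkQ w ∈ S.map LogAlgQ.mkQ := ⟨w, hw, rfl⟩
        have h2 := b.sum_repr ⟨_, h1⟩
        have h3 : LogAlgQ.mkQ (∑ j, b.repr ⟨_, h1⟩ j • y j) = LogAlgQ.mkQ w := by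
          rw [map_sum]
          have h4 := congrArg (S.map LogAlgQ.mkQ).subtype h2
          rw [map_sum] at h4
          refine Eq.trans (sum_congr rfl fun j _ => ?_) h4
          rw [map_smul, map_smul, hyb]
          rfl
        have h4 : ∑ j, b.repr ⟨_, h1⟩ j • y j - w ∈ LogAlgQ := (Submodule.Quotient.eq _).1 h3
        have h5 : w = ∑ j, b.repr ⟨_, h1⟩ j • y j - (∑ j, b.repr ⟨_, h1⟩ j • y j - w) := by ring
        rw [h5]
        exact T.sub_mem (T.sum_mem fun j _ => T.smul_mem _ (h j)) (hT' h4)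
    obtain ⟨D₀, χ, hD0, h3D, hχ⟩ := exists_gm (fun j => (hST.trans hx0.TT_le) (hyS j))
      (N := 3) (by norm_num)
    obtain ⟨f, U, hf0, hf2, hper, hodd, hd0, hliU, hcrit⟩ := level hT hD0 h3D hχ hliy
    have hmain : ∀ (M k : ℕ) (x : Fin k → ℚ), NI M x → (PT Real.pi (TT x) ↔ f ∣ M ∧ InSp U M x) := by
      intro M k x hx
      rw [hS _ (alg_le_TT x) hx.TT_le, hSspan _ (alg_le_TT x), hcrit M k x hx]
    have hn3 : ¬ f ∣ 3 := by
      intro h3
      exact not_PT (y := 1 / 3) (by norm_num) (by norm_num) chud3 ((hmain 3 1 _ NI3).2 ⟨h3, no3 h3 hper hodd⟩)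
    have hn4 : ¬ f ∣ 4 := by
      intro h4
      exact not_PT (y := 1 / 4) (by norm_num) (by norm_num) chud4 ((hmain 4 1 _ NI4).2 ⟨h4, no4 h4 hper hodd⟩)
    have h5 : 5 ≤ f := by
      by_contra h5
      push Not at h5
      interval_cases f
      · exact hn3 (one_dvd _)
      · exact hn4 (by norm_num)
      · exact hn3 (by norm_num)
      · exact hn4 (by norm_num)
    refine ⟨f, d, U, h5, hf2, ?_, hper, hliU, ?_, ?_⟩
    · rcases Nat.eq_zero_or_pos d with h6 | h6
      · have h7 := hd0 h6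
        omega
      · exact h6
    · intro k x M hx
      rw [← hmain M k x hx]
      constructor
      · intro h
        have hli := li_of_pg hT hx h
        exact ⟨hli, (pg_iff hT hx hli).1 h⟩
      · rintro ⟨hli, h⟩
        exact (pg_iff hT hx hli).2 h
    · intro D hD
      obtain ⟨J, hJ, hc⟩ := hI D hD
      obtain ⟨h7, h8⟩ := trdeg_level hJ hc
      split_ifs with hfD
      · exact h7 ((hmain D _ _ (xJ_NI hJ)).2 ⟨hfD, inSp_level hJ hc hfD hper hodd⟩)
      · exact h8 fun h9 => hfD ((hmain D _ _ (xJ_NI hJ)).1 h9).1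
  · left
    push Not at hex
    refine ⟨fun k x M hx => ⟨li_of_pg hT hx, fun hli => (pg_iff hT hx hli).2 (hex M k x hx hli)⟩,
      fun D hD => ?_⟩
    obtain ⟨J, hJ, hc⟩ := hI D hD
    exact (trdeg_level hJ hc).2 (hex D _ _ (xJ_NI hJ) (xJ_li hJ))

end Pool.Agent.LWP
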