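import Mathlib

/-!
Lang's conjecture with `π`, part 1: algebraic closures of exponentials of rational subspaces of
logarithms; the least subspace over which a given number is algebraic.
-/

set_option autoImplicit false

namespace Pool.Agent.LWP

open Set AlgebraicIndependent

/-- the matroid of algebraic independence of real numbers over `ℚ` -/
noncomputable abbrev Mt : Matroid ℝ := AlgebraicIndependent.matroid ℚ ℝ

theorem mem_cl {s : Set ℝ} {z : ℝ} :
    z ∈ Mt.closure s ↔ IsAlgebraic (Algebra.adjoin ℚ s) z := by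
  rw [matroid_closure_eq]
  exact Iff.rfl

theorem cl_mono {s t : Set ℝ} (h : s ⊆ t) : Mt.closure s ⊆ Mt.closure t :=
  Mt.closure_subset_closure h

theorem subset_cl (s : Set ℝ) : s ⊆ Mt.closure s := Mt.subset_closure s (by simp)

/-- the closure as a subfield -/
theorem cl_mul {s : Set ℝ} {x y : ℝ} (hx : x ∈ Mt.closure s) (hy : y ∈ Mt.closure s) :
    x * y ∈ Mt.closure s := by
  rw [mem_cl] at *
  exact hx.mul hy

theorem cl_inv {s : Set ℝ} {x : ℝ} (hx : x ∈ Mt.closure s) : x⁻¹ ∈ Mt.closure s := by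
  rw [mem_cl] at *
  exact hx.inv

theorem cl_one {s : Set ℝ} : (1 : ℝ) ∈ Mt.closure s := by
  rw [mem_cl]
  exact isAlgebraic_one

theorem cl_pow {s : Set ℝ} {x : ℝ} (hx : x ∈ Mt.closure s) (n : ℕ) : x ^ n ∈ Mt.closure s := by
  rw [mem_cl] at *
  exact hx.pow n

theorem cl_of_pow {s : Set ℝ} {x : ℝ} {n : ℕ} (hn : 0 < n) (hx : x ^ n ∈ Mt.closure s) :
    x ∈ Mt.closure s := by
  rw [mem_cl] at *
  exact hx.of_pow hn

/-- the logarithms of the positive elements of a closure form a rational subspace -/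
noncomputable def Lc (s : Set ℝ) : Submodule ℚ ℝ where
  carrier := {y | Real.exp y ∈ Mt.closure s}
  zero_mem' := by
    show Real.exp 0 ∈ Mt.closure s
    rw [Real.exp_zero]
    exact cl_one
  add_mem' := by
    intro x y hx hy
    show Real.exp (x + y) ∈ Mt.closure s
    rw [Real.exp_add]
    exact cl_mul hx hy
  smul_mem' := by
    intro q y hy
    show Real.exp (q • y) ∈ Mt.closure s
    have hy' : Real.exp y ∈ Mt.closure s := hy
    apply cl_of_pow q.pos
    rw [← Real.exp_nat_mul, Rat.smul_def, ← mul_assoc]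
    have h2 : (q.den : ℝ) * (q : ℝ) = q.num := by
      have h3 : (q.den : ℚ) * q = q.num := by
        rw [mul_comm]
        exact Rat.mul_den_eq_num q
      exact_mod_cast h3
    rw [h2]
    rcases Int.eq_nat_or_neg q.num with ⟨n, hn | hn⟩
    · rw [hn, Int.cast_natCast, Real.exp_nat_mul]
      exact cl_pow hy' n
    · rw [hn, Int.cast_neg, Int.cast_natCast, neg_mul, Real.exp_neg, Real.exp_nat_mul]
      exact cl_inv (cl_pow hy' n)

theorem mem_Lc {s : Set ℝ} {y : ℝ} : y ∈ Lc s ↔ Real.exp y ∈ Mt.closure s := Iff.rfl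

/-- the number `z` is algebraic over the field generated by the exponentials of `T` -/
def PT (z : ℝ) (T : Submodule ℚ ℝ) : Prop := z ∈ Mt.closure (Real.exp '' (T : Set ℝ))

theorem PT.mono {z : ℝ} {T T' : Submodule ℚ ℝ} (h : PT z T) (hT : T ≤ T') : PT z T' :=
  cl_mono (image_mono hT) h

variable {A L : Submodule ℚ ℝ}

/-- generators of `T` modulo `A` generate the closure -/
theorem PT.of_span (hA : ∀ s : Set ℝ, A ≤ Lc s) {z : ℝ} {T : Submodule ℚ ℝ} (h : PT z T) {s : Set ℝ}
    (hs : T ≤ Submodule.span ℚ s ⊔ A) : z ∈ Mt.closure (Real.exp '' s) := by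
  have h1 : Submodule.span ℚ s ⊔ A ≤ Lc (Real.exp '' s) := by
    apply sup_le _ (hA _)
    rw [Submodule.span_le]
    intro y hy
    exact subset_cl _ ⟨y, hy, rfl⟩
  have h2 : Real.exp '' (T : Set ℝ) ⊆ Mt.closure (Real.exp '' s) := by
    rintro _ ⟨y, hy, rfl⟩
    exact h1 (hs hy)
  have h3 := Mt.closure_subset_closure h2 h
  rwa [Matroid.closure_closure] at h3

theorem span_of_map {T : Submodule ℚ ℝ} {b : Set ℝ}
    (h : A.mkQ '' (T : Set ℝ) ⊆ Submodule.span ℚ (A.mkQ '' b)) : T ≤ Submodule.span ℚ b ⊔ A := by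
  intro y hy
  have h1 : A.mkQ y ∈ Submodule.span ℚ (A.mkQ '' b) := h ⟨y, hy, rfl⟩
  rw [Submodule.span_image] at h1
  obtain ⟨w, hw, hwy⟩ := h1
  have h2 : w - y ∈ A := (Submodule.Quotient.eq A).1 hwy
  have h3 : y = w - (w - y) := by ring
  rw [h3]
  exact Submodule.sub_mem _ (Submodule.mem_sup_left hw) (Submodule.mem_sup_right h2)

/-- **the modular law** -/
theorem PT.inter (hA : ∀ s : Set ℝ, A ≤ Lc s)
    (hL : ∀ s : Set ℝ, s ⊆ L → LinearIndepOn ℚ A.mkQ s → Mt.Indep (Real.exp '' s))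
    {z : ℝ} {T T' : Submodule ℚ ℝ} (hTL : T ≤ L) (hAT' : A ≤ T') (hTL' : T' ≤ L)
    (h : PT z T) (h' : PT z T') : PT z (T ⊓ T') := by
  obtain ⟨b0, hb0, -, hspan0, hli0⟩ := exists_linearIndepOn_extension (K := ℚ) (v := A.mkQ)
    (linearIndepOn_empty ℚ A.mkQ) (Set.empty_subset ((T ⊓ T' : Submodule ℚ ℝ) : Set ℝ))
  have hb0T : b0 ⊆ T := fun y hy => (hb0 hy).1
  have hb0T' : b0 ⊆ T' := fun y hy => (hb0 hy).2
  obtain ⟨b1, hb1, hb01, hspan1, hli1⟩ := exists_linearIndepOn_extension hli0 hb0T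
  obtain ⟨b2, hb2, hb02, hspan2, hli2⟩ := exists_linearIndepOn_extension hli0 hb0T'
  -- the union is linearly independent
  have hdis : Disjoint (Submodule.span ℚ (A.mkQ '' b1)) (Submodule.span ℚ (A.mkQ '' (b2 \ b0))) := by
    rw [Submodule.disjoint_def]
    intro w hw1 hw2
    have hw1' : w ∈ T.map A.mkQ := by
      refine Submodule.span_le.2 ?_ hw1
      rintro _ ⟨y, hy, rfl⟩
      exact ⟨y, hb1 hy, rfl⟩
    have hw2' : w ∈ T'.map A.mkQ := by
      refine Submodule.span_le.2 ?_ hw2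
      rintro _ ⟨y, hy, rfl⟩
      exact ⟨y, hb2 hy.1, rfl⟩
    obtain ⟨y1, hy1, rfl⟩ := hw1'
    obtain ⟨y2, hy2, hy12⟩ := hw2'
    have h3 : y2 - y1 ∈ A := (Submodule.Quotient.eq A).1 hy12
    have h4 : y1 ∈ T' := by
      have h5 : y1 = y2 - (y2 - y1) := by ring
      rw [h5]
      exact T'.sub_mem hy2 (hAT' h3)
    have h6 : A.mkQ y1 ∈ Submodule.span ℚ (A.mkQ '' b0) := hspan0 ⟨y1, ⟨hy1, h4⟩, rfl⟩
    have h7 : Disjoint (Submodule.span ℚ (A.mkQ '' b0)) (Submodule.span ℚ (A.mkQ '' (b2 \ b0))) := by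
      have h8 : LinearIndepOn ℚ A.mkQ (b0 ∪ b2 \ b0) := by
        rw [union_sdiff_cancel hb02]
        exact hli2
      exact ((linearIndepOn_union_iff disjoint_sdiff_right).1 h8).2.2
    exact Submodule.disjoint_def.1 h7 _ h6 hw2
  have hli : LinearIndepOn ℚ A.mkQ (b1 ∪ b2) := by
    have h3 := hli1.union (hli2.mono sdiff_subset) hdis
    have h4 : b1 ∪ b2 \ b0 = b1 ∪ b2 := by
      ext y
      constructor
      · rintro (h | h)
        · exact Or.inl h
        · exact Or.inr h.1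
      · rintro (h | h)
        · exact Or.inl h
        · by_cases hy : y ∈ b0
          · exact Or.inl (hb01 hy)
          · exact Or.inr ⟨h, hy⟩
    rwa [h4] at h3
  have hind : Mt.Indep (Real.exp '' (b1 ∪ b2)) := hL _ (union_subset
    (fun y hy => hTL (hb1 hy)) (fun y hy => hTL' (hb2 hy))) hli
  have hz1 := PT.of_span hA h (span_of_map hspan1)
  have hz2 := PT.of_span hA h' (span_of_map hspan2)
  rw [image_union] at hind
  have hz3 : z ∈ Mt.closure (Real.exp '' b1 ∩ Real.exp '' b2) := by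
    rw [hind.closure_inter_eq_inter_closure]
    exact ⟨hz1, hz2⟩
  refine cl_mono ?_ hz3
  rw [← image_inter Real.exp_injective]
  exact image_mono fun y hy => ⟨hb1 hy.1, hb2 hy.2⟩

/-- **the least subspace** over which `z` is algebraic -/
theorem exists_least (hA : ∀ s : Set ℝ, A ≤ Lc s)
    (hL : ∀ s : Set ℝ, s ⊆ L → LinearIndepOn ℚ A.mkQ s → Mt.Indep (Real.exp '' s))
    {z : ℝ} {T₀ : Submodule ℚ ℝ} (hAT : A ≤ T₀) (hTL : T₀ ≤ L) (h : PT z T₀)
    (hfin : FiniteDimensional ℚ (T₀.map A.mkQ)) :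
    ∃ S : Submodule ℚ ℝ, A ≤ S ∧ S ≤ T₀ ∧ PT z S ∧ ∀ T : Submodule ℚ ℝ, A ≤ T → T ≤ L →
      (PT z T ↔ S ≤ T) := by
  classical
  let P : ℕ → Prop := fun n => ∃ S : Submodule ℚ ℝ, A ≤ S ∧ S ≤ T₀ ∧ PT z S ∧
    Module.finrank ℚ (S.map A.mkQ) = n
  have hex : ∃ n, P n := ⟨_, T₀, hAT, le_refl _, h, rfl⟩
  obtain ⟨S, hAS, hST, hS, hn⟩ := Nat.find_spec hex
  have hfS : ∀ S' : Submodule ℚ ℝ, S' ≤ T₀ → FiniteDimensional ℚ (S'.map A.mkQ) := fun S' h' =>
    Submodule.finiteDimensional_of_le (Submodule.map_mono h')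
  refine ⟨S, hAS, hST, hS, fun T hT hTL' => ⟨fun h1 => ?_, fun h1 => hS.mono h1⟩⟩
  have h2 : PT z (S ⊓ T) := PT.inter hA hL (hST.trans hTL) hT hTL' hS h1
  have h3 : Nat.find hex ≤ Module.finrank ℚ ((S ⊓ T).map A.mkQ) :=
    Nat.find_min' hex ⟨S ⊓ T, le_inf hAS hT, inf_le_left.trans hST, h2, rfl⟩
  have := hfS S hST
  have h4 : (S ⊓ T).map A.mkQ = S.map A.mkQ :=
    Submodule.eq_of_le_of_finrank_le (Submodule.map_mono inf_le_left) (by rw [hn]; exact h3)
  intro y hy
  have h5 : A.mkQ y ∈ (S ⊓ T).map A.mkQ := by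
    rw [h4]
    exact ⟨y, hy, rfl⟩
  obtain ⟨w, hw, hwy⟩ := h5
  have h6 : w - y ∈ A := (Submodule.Quotient.eq A).1 hwy
  have h7 : y = w - (w - y) := by ring
  rw [h7]
  exact T.sub_mem hw.2 (hT h6)

/-! ## finite families -/

/-- two families with the same closure are algebraically independent together -/
theorem ind_congr {ι : Type*} [Fintype ι] {x y : ι → ℝ}
    (h : Mt.closure (range x) = Mt.closure (range y)) (hx : AlgebraicIndependent ℚ x) :
    AlgebraicIndependent ℚ y := by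
  classical
  have hinj : Function.Injective x := hx.injective
  have h1 : Mt.Indep (range x) := hx.coe_range
  have h2 : Mt.eRk (range x) = Mt.eRk (range y) := by
    rw [← Mt.eRk_closure_eq (range x), h, Mt.eRk_closure_eq]
  have h3 : (range x).encard = Fintype.card ι := by
    rw [← image_univ, hinj.encard_image, encard_univ]
    simp
  have h4 : (range y).encard ≤ Fintype.card ι := by
    rw [← image_univ]
    refine (encard_image_le _ _).trans ?_
    rw [encard_univ]
    simp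
  have h5 : Mt.eRk (range y) = Fintype.card ι := by
    rw [← h2, h1.eRk_eq_encard, h3]
  have h6 : (range y).encard = Fintype.card ι := le_antisymm h4 (by
    rw [← h5]
    exact Mt.eRk_le_encard _)
  have h7 : Mt.Indep (range y) := by
    have := Mt.indep_iff_eRk_eq_encard_of_finite (I := range y) (finite_range y)
    rw [this, h5, h6]
  have h8 : Function.Injective y := by
    rw [← injOn_univ]
    refine finite_univ.injOn_of_encard_image_eq ?_
    rw [image_univ, h6, encard_univ]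
    simp
  exact (algebraicIndependent_subtype_range h8).1 h7

end Pool.Agent.LWP
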